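import Pool.Agent.helper62.DP8.Spec

/-!
# Project sq8 (MP_e3efbc_co): module UBD
-/

set_option autoImplicit false

namespace Pool.Agent.helper62.DP8

/-- the counting step -/
lemma UBD_sum (d : ℕ) (A : Finset ℕ) (D : ℕ → ℕ) (hA : A.card = d) (hD : ∀ w ∈ A, D w ≤ 3) :
    ∑ w ∈ A, (3 - D w) = 3 * d - ∑ w ∈ A, D w := by
  have h : ∑ w ∈ A, (3 - D w) + ∑ w ∈ A, D w = 3 * d := by
    rw [← Finset.sum_add_distrib]
    have : ∑ w ∈ A, (3 - D w + D w) = ∑ w ∈ A, 3 := by
      apply Finset.sum_congr rfl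
      intro w hw
      have := hD w hw
      omega
    rw [this, Finset.sum_const, hA]
    simp [mul_comm]
  omega

theorem UBD (hBIT : BIT_stmt) (hORS : ORS_stmt) (hTAB : TAB_stmt) (hWTB : WTB_stmt) (hTRR : TRR_stmt) (hTDD : TDD_stmt) : UBD_stmt := by
  intro V _ G g s v hC hR x hx
  classical
  obtain ⟨hR1, hR2⟩ := hTRR V G g s v hR
  obtain ⟨hD1, hD2, hD3⟩ := hTDD V G g s v hC hR
  obtain ⟨-, -, -, -, -, hK, -⟩ := hWTB.2.1 g s
  -- membership in the mask `K x`
  have hKx : ∀ y, tb (ent (tbl g s).K x) y = true ↔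
      (y < 32 ∧ y ≠ x ∧ (tb (ent (tbl g s).R x) y = true ∨ ∃ w < s.n, tb (ent (tbl g s).R x) w = true ∧ tb (ent (tbl g s).R w) y = true)) := by
    intro y
    rw [hK, hTAB.2.2.1, hBIT.2.2.2.1, hBIT.2.1, hBIT.2.2.2.2.1]
    simp only [Bool.and_eq_true, Bool.or_eq_true, Bool.not_eq_true', decide_eq_false_iff_not, hORS.1]
    constructor
    · rintro ⟨-, h1, h2, h3⟩
      exact ⟨h1, h3, h2⟩
    · rintro ⟨h1, h2, h3⟩
      exact ⟨hx, h1, h3, h2⟩
  have hUc : ∀ w : ℕ, ∃ U : Finset V, w < s.n → (U.card + ent (tbl g s).D w = 3 ∧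
      ∀ z, z ∈ U ↔ G.Adj (v w) z ∧ ∀ y, tb (ent (tbl g s).R w) y = true → z ≠ v y) := by
    intro w
    by_cases hw : w < s.n
    · obtain ⟨U, h1, h2⟩ := hD3 w hw
      exact ⟨U, fun _ => ⟨h1, h2⟩⟩
    · exact ⟨∅, fun h => absurd h hw⟩
  choose U hU using hUc
  set n := s.n with hn
  set KS : Finset ℕ := (Finset.range n).filter (fun y => tb (ent (tbl g s).K x) y = true) with hKS
  set RS : Finset ℕ := (Finset.range n).filter (fun y => tb (ent (tbl g s).R x) y = true) with hRS
  have hcK : cnt (ent (tbl g s).K x) n = KS.card := hORS.2.1 _ _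
  have hRc : ent (tbl g s).D x = RS.card := hD1 x hx
  have hS : sumS (ent (tbl g s).R x) (tbl g s).D n = ∑ w ∈ RS, ent (tbl g s).D w := hORS.2.2.2.2.2 _ _ _
  -- the neighbours of `z` different from `v x`
  set N : V → Finset V := fun z => (Finset.univ.filter (fun u => G.Adj z u)).erase (v x) with hN
  have hNc : ∀ z ∈ U x, (insert z (N z)).card ≤ 3 := by
    intro z hz
    obtain ⟨hz1, -⟩ := ((hU x hx).2 z).1 hz
    have h1 : (Finset.univ.filter (fun u => G.Adj z u)).card = 3 := by
      have := hC z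
      rw [Set.ncard_eq_toFinset_card'] at this
      rw [← this]
      congr 1
      ext u
      simp
    have h2 : (N z).card = 2 := by
      rw [hN]
      simp only
      rw [Finset.card_erase_of_mem, h1]
      simp [hz1.symm]
    have := Finset.card_insert_le z (N z)
    omega
  -- the cover of the neighbourhood
  have hsub : (Finset.univ.filter (fun u => (sq G).Adj (v x) u)) ⊆
      (KS.image v ∪ (U x).biUnion (fun z => insert z (N z))) ∪ RS.biUnion U := by
    intro u hu
    simp only [Finset.mem_filter, Finset.mem_univ, true_and] at hu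
    obtain ⟨hne, hu⟩ := hu
    simp only [Finset.mem_union, Finset.mem_image, Finset.mem_biUnion, Finset.mem_insert]
    rcases hu with hu | ⟨c, hc1, hc2⟩
    · by_cases h : ∀ y, tb (ent (tbl g s).R x) y = true → u ≠ v y
      · left; right
        exact ⟨u, ((hU x hx).2 u).2 ⟨hu, h⟩, Or.inl rfl⟩
      · push Not at h
        obtain ⟨y, hy1, hy2⟩ := h
        obtain ⟨-, hyn, hxy, -, -⟩ := hR2 x y hy1
        left; left
        refine ⟨y, ?_, hy2.symm⟩
        rw [hKS, Finset.mem_filter, Finset.mem_range]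
        refine ⟨hyn, (hKx y).2 ⟨lt_of_lt_of_le hyn hR.n32, hxy.symm, Or.inl hy1⟩⟩
    · by_cases h : ∀ y, tb (ent (tbl g s).R x) y = true → c ≠ v y
      · left; right
        refine ⟨c, ((hU x hx).2 c).2 ⟨hc1, h⟩, Or.inr ?_⟩
        rw [hN]
        simp only [Finset.mem_erase, Finset.mem_filter, Finset.mem_univ, true_and]
        exact ⟨hne.symm, hc2⟩
      · push Not at h
        obtain ⟨w, hw1, hw2⟩ := h
        obtain ⟨-, hwn, hxw, -, -⟩ := hR2 x w hw1
        subst hw2
        by_cases h' : ∀ y, tb (ent (tbl g s).R w) y = true → u ≠ v y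
        · right
          refine ⟨w, ?_, ((hU w hwn).2 u).2 ⟨hc2, h'⟩⟩
          rw [hRS, Finset.mem_filter, Finset.mem_range]
          exact ⟨hwn, hw1⟩
        · push Not at h'
          obtain ⟨y, hy1, hy2⟩ := h'
          obtain ⟨-, hyn, -, -, -⟩ := hR2 w y hy1
          left; left
          refine ⟨y, ?_, hy2.symm⟩
          rw [hKS, Finset.mem_filter, Finset.mem_range]
          refine ⟨hyn, (hKx y).2 ⟨lt_of_lt_of_le hyn hR.n32, ?_, Or.inr ⟨w, hwn, hw1, hy1⟩⟩⟩
          rintro rfl
          exact hne hy2.symm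
  have hcard1 : dg (sq G) Finset.univ (v x) ≤
      ((KS.image v ∪ (U x).biUnion (fun z => insert z (N z))) ∪ RS.biUnion U).card := by
    unfold dg
    refine le_trans (le_of_eq ?_) (Finset.card_le_card hsub)
    congr 1
  have h1 := Finset.card_union_le (KS.image v ∪ (U x).biUnion (fun z => insert z (N z))) (RS.biUnion U)
  have h2 := Finset.card_union_le (KS.image v) ((U x).biUnion (fun z => insert z (N z)))
  have h3 : (KS.image v).card ≤ KS.card := Finset.card_image_le
  have h4 : ((U x).biUnion (fun z => insert z (N z))).card ≤ (U x).card * 3 := Finset.card_biUnion_le_card_mul _ _ _ hNc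
  have h5 : (RS.biUnion U).card ≤ ∑ w ∈ RS, (U w).card := Finset.card_biUnion_le
  have h6 : ∑ w ∈ RS, (U w).card = ∑ w ∈ RS, (3 - ent (tbl g s).D w) := by
    apply Finset.sum_congr rfl
    intro w hw
    have hwn : w < s.n := by
      rw [hRS, Finset.mem_filter, Finset.mem_range] at hw
      exact hw.1
    have := (hU w hwn).1
    omega
  have h7 := UBD_sum (ent (tbl g s).D x) RS (fun w => ent (tbl g s).D w) hRc.symm (by
    intro w hw
    have hwn : w < s.n := by
      rw [hRS, Finset.mem_filter, Finset.mem_range] at hw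
      exact hw.1
    have := (hU w hwn).1
    omega)
  have h8 := (hU x hx).1
  rw [hcK, hS]
  rw [h6, h7] at h5
  have h9 : (U x).card = 3 - ent (tbl g s).D x := by omega
  rw [h9] at h4
  omega

end Pool.Agent.helper62.DP8
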